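import Pool.Agent.Helper89.A8.Stmts
import Pool.Agent.Helper89.A8.GTools

/-! Blocks A8-G13: `bHA`, `bAD`, `bLL`, `bJ`. -/

set_option autoImplicit false

namespace Pool.Agent.A8

open Matrix
open scoped commutatorElement

section
variable {G : Type} [Group G] {π : G →* Gam} {W W' : Subgroup G}
variable {M : Type*} [AddCommGroup M] [Module RG M] {χ : G → M}

theorem G13_mul_right (h : HomOn π ⁅W, W'⁆ χ) (hW : W.Normal) (hW' : W'.Normal)
    (hk : W' ≤ π.ker) {w y y' : G} (hw : w ∈ W) (hy : y ∈ W') (hy' : y' ∈ W') :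
    χ ⁅w, y * y'⁆ = χ ⁅w, y⁆ + χ ⁅w, y'⁆ := by
  have hn : (⁅W, W'⁆ : Subgroup G).Normal := Subgroup.commutator_normal W W'
  have e : ⁅w, y * y'⁆ = ⁅w, y⁆ * (y * ⁅w, y'⁆ * y⁻¹) := by
    simp only [commutatorElement_def]; group
  have h1 := Subgroup.commutator_mem_commutator hw hy
  have h2 := Subgroup.commutator_mem_commutator hw hy'
  rw [e, h.mul _ h1 _ (hn.conj_mem _ h2 y), h.conj_ker (hk hy) h2]

theorem G13_mul_left (h : HomOn π ⁅W, W'⁆ χ) (hW : W.Normal) (hW' : W'.Normal)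
    (hk : W ≤ π.ker) {w w' y : G} (hw : w ∈ W) (hw' : w' ∈ W) (hy : y ∈ W') :
    χ ⁅w * w', y⁆ = χ ⁅w, y⁆ + χ ⁅w', y⁆ := by
  have hn : (⁅W, W'⁆ : Subgroup G).Normal := Subgroup.commutator_normal W W'
  have e : ⁅w * w', y⁆ = (w * ⁅w', y⁆ * w⁻¹) * ⁅w, y⁆ := by
    simp only [commutatorElement_def]; group
  have h1 := Subgroup.commutator_mem_commutator hw hy
  have h2 := Subgroup.commutator_mem_commutator hw' hy
  rw [e, h.mul _ (hn.conj_mem _ h2 w) _ h1, h.conj_ker (hk hw) h2, add_comm]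

/-- the right annihilator -/
def G13_T (h : HomOn π ⁅W, W'⁆ χ) (hW : W.Normal) (hW' : W'.Normal) (hk : W' ≤ π.ker) :
    Subgroup G where
  carrier := {y | y ∈ W' ∧ ∀ w ∈ W, χ ⁅w, y⁆ = 0}
  one_mem' := ⟨W'.one_mem, fun w _ => by rw [commutatorElement_one_right, h.map_one]⟩
  mul_mem' := by
    rintro a b ⟨ha, ha'⟩ ⟨hb, hb'⟩
    refine ⟨W'.mul_mem ha hb, fun w hw => ?_⟩
    rw [G13_mul_right h hW hW' hk hw ha hb, ha' w hw, hb' w hw, add_zero]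
  inv_mem' := by
    rintro a ⟨ha, ha'⟩
    refine ⟨W'.inv_mem ha, fun w hw => ?_⟩
    have h1 := G13_mul_right h hW hW' hk hw ha (W'.inv_mem ha)
    rw [mul_inv_cancel, commutatorElement_one_right, h.map_one, ha' w hw, zero_add] at h1
    exact h1.symm

theorem G13_T_normal (h : HomOn π ⁅W, W'⁆ χ) (hW : W.Normal) (hW' : W'.Normal)
    (hk : W' ≤ π.ker) : (G13_T h hW hW' hk).Normal := by
  constructor
  rintro y ⟨hy, hy'⟩ g
  refine ⟨hW'.conj_mem y hy g, fun w hw => ?_⟩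
  have e : ⁅w, g * y * g⁻¹⁆ = g * ⁅g⁻¹ * w * g, y⁆ * g⁻¹ := by
    simp only [commutatorElement_def]; group
  have hw' : g⁻¹ * w * g ∈ W := by
    have := hW.conj_mem w hw g⁻¹
    rwa [inv_inv] at this
  rw [e, h.conj g _ (Subgroup.commutator_mem_commutator hw' hy), hy' _ hw', act_zero]

/-- if `χ` does not vanish, it does not vanish on a commutator -/
theorem G13_exists (h : HomOn π ⁅W, W'⁆ χ) (hne : ∃ z ∈ (⁅W, W'⁆ : Subgroup G), χ z ≠ 0) :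
    ∃ w ∈ W, ∃ y ∈ W', χ ⁅w, y⁆ ≠ 0 := by
  by_contra hcon
  push Not at hcon
  obtain ⟨z, hz, hz'⟩ := hne
  have hle : ⁅W, W'⁆ ≤ h.kerG := by
    rw [Subgroup.commutator_le]
    intro w hw y hy
    exact ⟨Subgroup.commutator_mem_commutator hw hy, hcon w hw y hy⟩
  exact hz' (hle hz).2

/-- the general device -/
theorem G13_dev (h1 : S_COV) (h2 : S_STD2) [Finite G] (hc : Cfg π) (hW : W.Normal)
    (hW' : W'.Normal) (hk : W ≤ π.ker) (hk' : W' ≤ π.ker) {c : Ty} {χ : G → Md c}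
    (hχ : HomOn π ⁅W, W'⁆ χ) (hne : ∃ z ∈ (⁅W, W'⁆ : Subgroup G), χ z ≠ 0) :
    ∃ (D : Subgroup G) (b : Ty) (φ : G → Md b) (a : Ty) (m : Md a → Md b → Md c) (θ : G → Md a),
      D ≤ W' ∧ Loc π D b φ ∧ Std3 a b c m ∧ HomOn π W θ ∧ (∃ w ∈ W, θ w ≠ 0) ∧
      (∀ w ∈ W, ∀ y ∈ D, χ ⁅w, y⁆ = m (θ w) (φ y)) ∧ ∃ w ∈ W, ∃ y ∈ D, χ ⁅w, y⁆ ≠ 0 := by
  obtain ⟨w0, hw0, y0, hy0, hwy⟩ := G13_exists hχ hne
  have hnle : ¬ W' ≤ G13_T hχ hW hW' hk' := fun hle => hwy ((hle hy0).2 w0 hw0)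
  obtain ⟨D, hD, hDW, hDT, hmin, hloc⟩ := h1 G π hc W' (G13_T hχ hW hW' hk') hW'
    (G13_T_normal hχ hW hW' hk') hk' hnle
  have hDne : ∃ w ∈ W, ∃ y ∈ D, χ ⁅w, y⁆ ≠ 0 := by
    by_contra hcon
    push Not at hcon
    exact hDT fun y hy => ⟨hDW hy, fun w hw => hcon w hw y hy⟩
  rcases hloc with ⟨b, φ, hL, hφ⟩ | hZ
  · have hsub : (⁅W, D⁆ : Subgroup G) ≤ ⁅W, W'⁆ := Subgroup.commutator_mono le_rfl hDW
    rcases h2 G π hc W D b φ hW hk hL c χ (hχ.mono hsub)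
      (fun w hw y hy h0 => ((hφ y hy).1 h0).2 w hw) with h0 | ⟨a, m, θ, hm, hθ, hθn, hf⟩
    · obtain ⟨w, hw, y, hy, hne'⟩ := hDne
      exact absurd (h0 w hw y hy) hne'
    · exact ⟨D, b, φ, a, m, θ, hDW, hL, hm, hθ, hθn, hf, hDne⟩
  · exfalso
    obtain ⟨w, hw, y, hy, hne'⟩ := hDne
    apply hne'
    have := (mem_ZK.1 (hZ hy)).1 w (hk hw)
    have e : ⁅w, y⁆ = 1 := by
      rw [commutatorElement_eq_one_iff_mul_comm]; exact this
    rw [e, hχ.map_one]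

/-- a normal subgroup minimal subject to `χ ≠ 0` is local -/
theorem G13_min (h1 : S_COV) (hS : S_SIM) [Finite G] (hc : Cfg π) {X : Subgroup G}
    (hX : X.Normal) (hXk : X ≤ π.ker) {c : Ty} {χ : G → Md c} (hχ : HomOn π X χ)
    (hne : ∃ x ∈ X, χ x ≠ 0) : ∃ D : Subgroup G, D ≤ X ∧ Loc π D c χ := by
  obtain ⟨x0, hx0, hx0'⟩ := hne
  have hnle : ¬ X ≤ hχ.kerG := fun hle => hx0' (hle hx0).2
  obtain ⟨D, hD, hDX, hDT, hmin, -⟩ := h1 G π hc X hχ.kerG hX (hχ.kerG_normal hX) hXk hnle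
  have hDne : ∃ x ∈ D, χ x ≠ 0 := by
    by_contra hcon
    push Not at hcon
    exact hDT fun y hy => ⟨hDX hy, hcon y hy⟩
  have hχD : HomOn π D χ := hχ.mono hDX
  refine ⟨D, hDX, ⟨hχD, hD, hDX.trans hXk, ?_, ?_⟩⟩
  · -- surjectivity
    let S : AddSubgroup (Md c) :=
      { carrier := {m | ∃ x ∈ D, χ x = m}
        zero_mem' := ⟨1, D.one_mem, hχD.map_one⟩
        add_mem' := by
          rintro _ _ ⟨x, hx, rfl⟩ ⟨y, hy, rfl⟩
          exact ⟨x * y, D.mul_mem hx hy, hχD.mul x hx y hy⟩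
        neg_mem' := by
          rintro _ ⟨x, hx, rfl⟩
          exact ⟨x, hx, (neg_eq (χ x)).symm⟩ }
    have hSact : ∀ g, ∀ m ∈ S, act g m ∈ S := by
      rintro g _ ⟨x, hx, rfl⟩
      obtain ⟨g', rfl⟩ := hc.surj g
      exact ⟨g' * x * g'⁻¹, hD.conj_mem x hx g', hχD.conj g' x hx⟩
    have hsim : IsSimpleModule RG (Md c) := hS c
    rcases hsim.1.eq_bot_or_eq_top (mkSub S hSact) with hb | ht
    · exfalso
      obtain ⟨x, hx, hx'⟩ := hDne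
      have : χ x ∈ mkSub S hSact := ⟨x, hx, rfl⟩
      rw [hb] at this
      exact hx' ((Submodule.mem_bot _).1 this)
    · intro m
      have : m ∈ mkSub S hSact := by rw [ht]; trivial
      exact this
  · intro Y hY hYD hYne
    by_contra hne'
    have := hmin Y hY hYD hne'
    obtain ⟨x, hx, hx'⟩ := hYne
    exact hx' (this hx).2

end

theorem bHA (h1 : S_COV) (h2 : S_STD2) (h3 : S_UQK) : S_HA := by
  intro G _ _ π hc c χ hχ hne
  have nv := Kt_normal π .v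
  have nl := Kt_normal π .l
  have A1 : c = .l ∨ c = .d := by
    obtain ⟨D, b, φ, a, m, θ, -, -, hm, hθ, hθn, -, -⟩ :=
      G13_dev h1 h2 hc nv nl (Kt_le π .v) (Kt_le π .l) hχ hne
    have ha := h3 G π hc .v a θ hθ hθn
    subst ha
    cases hm
    · exact Or.inl rfl
    · exact Or.inr rfl
  have A2 : c = .d ∨ c = .v := by
    rw [Subgroup.commutator_comm] at hχ hne
    obtain ⟨D, b, φ, a, m, θ, -, -, hm, hθ, hθn, -, -⟩ :=
      G13_dev h1 h2 hc nl nv (Kt_le π .l) (Kt_le π .v) hχ hne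
    have ha := h3 G π hc .l a θ hθ hθn
    subst ha
    cases hm
    · exact Or.inl rfl
    · exact Or.inr rfl
  rcases A1 with rfl | rfl
  · rcases A2 with h | h <;> exact absurd h (by decide)
  · rfl

theorem bAD (h1 : S_HA) (h2 : S_COV) (h3 : S_TB) (h4 : S_SIM) : S_AD := by
  intro G _ _ π hc
  by_contra hcon
  have nv := Kt_normal π .v
  have nl := Kt_normal π .l
  obtain ⟨c, χ, hχ, hk, x, hx, y, hy, hne⟩ := h3 G π hc (Kt π .v) (Kt π .l) (Kt π .d) nv nl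
    (Kt_normal π .d) (Kt_le π .v) (Kt_le π .l) hcon
  have hne' : ∃ z ∈ (⁅Kt π .v, Kt π .l⁆ : Subgroup G), χ z ≠ 0 :=
    ⟨_, Subgroup.commutator_mem_commutator hx hy, hne⟩
  have hcd := h1 G π hc c χ hχ hne'
  subst hcd
  obtain ⟨D, hD, hL⟩ := G13_min h2 h4 hc (Subgroup.commutator_normal _ _)
    ((Subgroup.commutator_le_left _ _).trans (Kt_le π .v)) hχ hne'
  obtain ⟨m, hm⟩ : ∃ m : Md .d, m ≠ 0 := ⟨(dE0 : MD), by decide⟩
  obtain ⟨z, hz, hz'⟩ := hL.surj m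
  exact hm (hz' ▸ hk z (hD hz) (hL.le_Kt hz))

theorem bLL (h1 : S_COV) (h2 : S_TB) (h3 : S_STD2) (h4 : S_UQK) : S_LL := by
  intro G _ _ π hc
  by_contra hcon
  have nv := Kt_normal π .v
  have nl := Kt_normal π .l
  have nd := Kt_normal π .d
  have nT : (⁅Kt π .v, Kt π .l⁆ ⊔ ⁅Kt π .d, Kt π .l⁆ : Subgroup G).Normal := inferInstance
  obtain ⟨c, χ, hχ, hk, x, hx, y, hy, hne⟩ := h2 G π hc (Kt π .l) (Kt π .l)
    (⁅Kt π .v, Kt π .l⁆ ⊔ ⁅Kt π .d, Kt π .l⁆) nl nl nT (Kt_le π .l) (Kt_le π .l) hcon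
  have hne' : ∃ z ∈ (⁅Kt π .l, Kt π .l⁆ : Subgroup G), χ z ≠ 0 :=
    ⟨_, Subgroup.commutator_mem_commutator hx hy, hne⟩
  obtain ⟨D, b, φ, a, m, θ, hDl, hL, hm, hθ, hθn, -, w, hw, y', hy', hwy⟩ :=
    G13_dev h1 h3 hc nl nl (Kt_le π .l) (Kt_le π .l) hχ hne'
  have ha := h4 G π hc .l a θ hθ hθn
  subst ha
  apply hwy
  apply hk _ (Subgroup.commutator_mem_commutator hw (hDl hy'))
  cases hm
  · apply Subgroup.mem_sup_left
    rw [Subgroup.commutator_comm]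
    exact Subgroup.commutator_mem_commutator hw (hL.le_Kt hy')
  · apply Subgroup.mem_sup_right
    rw [Subgroup.commutator_comm]
    exact Subgroup.commutator_mem_commutator hw (hL.le_Kt hy')

theorem bJ (h1 : S_COV) (h2 : S_TB) (h3 : S_STD2) (h4 : S_UQK) (h5 : S_SIM) : S_J := by
  intro G _ _ π hc
  by_contra hcon
  have nv := Kt_normal π .v
  have nl := Kt_normal π .l
  have nd := Kt_normal π .d
  have nT : (Kt π .l ⊔ Kt π .d : Subgroup G).Normal := inferInstance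
  obtain ⟨c, χ, hχ, hk, x, hx, y, hy, hne⟩ := h2 G π hc (Kt π .v) (Kt π .v)
    (Kt π .l ⊔ Kt π .d) nv nv nT (Kt_le π .v) (Kt_le π .v) hcon
  have hne' : ∃ z ∈ (⁅Kt π .v, Kt π .v⁆ : Subgroup G), χ z ≠ 0 :=
    ⟨_, Subgroup.commutator_mem_commutator hx hy, hne⟩
  obtain ⟨D', b, φ, a, m, θ, hDl, hL', hm, hθ, hθn, -, -⟩ :=
    G13_dev h1 h3 hc nv nv (Kt_le π .v) (Kt_le π .v) hχ hne'
  have ha := h4 G π hc .v a θ hθ hθn
  subst ha
  obtain ⟨D, hD, hL⟩ := G13_min h1 h5 hc (Subgroup.commutator_normal _ _)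
    ((Subgroup.commutator_le_left _ _).trans (Kt_le π .v)) hχ hne'
  cases hm
  · obtain ⟨z, hz, hz'⟩ := hL.surj (lE01 : ML)
    have h0 := hk z (hD hz) (Subgroup.mem_sup_left (hL.le_Kt hz))
    rw [hz'] at h0
    exact absurd h0 (by decide)
  · obtain ⟨z, hz, hz'⟩ := hL.surj (dE0 : MD)
    have h0 := hk z (hD hz) (Subgroup.mem_sup_right (hL.le_Kt hz))
    rw [hz'] at h0
    exact absurd h0 (by decide)

end Pool.Agent.A8
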