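import Pool.Agent.Helper1.A8.G13

/-! Block A8-G14: `bAL`. -/

set_option autoImplicit false

namespace Pool.Agent.A8

open Matrix
open scoped commutatorElement

section
variable {G : Type} [Group G] {π : G →* Gam} {W W' : Subgroup G}
variable {M : Type*} [AddCommGroup M] [Module RG M] {χ : G → M}

/-- the left annihilator of an element -/
def G14_L (h : HomOn π ⁅W, W'⁆ χ) (hW : W.Normal) (hW' : W'.Normal) (hk : W ≤ π.ker) {y : G}
    (hy : y ∈ W') : Subgroup G where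
  carrier := {w | w ∈ W ∧ χ ⁅w, y⁆ = 0}
  one_mem' := ⟨W.one_mem, by rw [commutatorElement_one_left, h.map_one]⟩
  mul_mem' := by
    rintro a b ⟨ha, ha'⟩ ⟨hb, hb'⟩
    refine ⟨W.mul_mem ha hb, ?_⟩
    rw [G13_mul_left h hW hW' hk ha hb hy, ha', hb', add_zero]
  inv_mem' := by
    rintro a ⟨ha, ha'⟩
    refine ⟨W.inv_mem ha, ?_⟩
    have h1 := G13_mul_left h hW hW' hk ha (W.inv_mem ha) hy
    rw [mul_inv_cancel, commutatorElement_one_left, h.map_one, ha', zero_add] at h1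
    exact h1.symm

/-- the Hall-Witt identity in the special case needed -/
theorem G14_hw {x l y : G} (h1 : ⁅x, l⁆ * (l * ⁅x, y⁆⁻¹ * l⁻¹) = (l * ⁅x, y⁆⁻¹ * l⁻¹) * ⁅x, l⁆)
    (h2 : ⁅x, y⁆ * (l * ⁅x, y⁆⁻¹ * l⁻¹) = (l * ⁅x, y⁆⁻¹ * l⁻¹) * ⁅x, y⁆)
    (h3 : (l * y) * x * (l * y)⁻¹ = (y * l) * x * (y * l)⁻¹) :
    ⁅⁅x, l⁆, y⁆ = ⁅⁅x, y⁆, l⁆ := by
  have e1 : (y * l) * x * (y * l)⁻¹ = (y * ⁅x, l⁆⁻¹ * y⁻¹) * (⁅x, y⁆⁻¹ * x) := by
    simp only [commutatorElement_def]; group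
  have e2 : (l * y) * x * (l * y)⁻¹ = (l * ⁅x, y⁆⁻¹ * l⁻¹) * (⁅x, l⁆⁻¹ * x) := by
    simp only [commutatorElement_def]; group
  rw [e1, e2] at h3
  set Q := l * ⁅x, y⁆⁻¹ * l⁻¹ with hQ
  set P := y * ⁅x, l⁆⁻¹ * y⁻¹ with hP
  have e3 : ⁅⁅x, l⁆, y⁆ = ⁅x, l⁆ * P := by
    rw [hP]
    generalize ⁅x, l⁆ = a
    simp only [commutatorElement_def]; group
  have e4 : ⁅⁅x, y⁆, l⁆ = ⁅x, y⁆ * Q := by
    rw [hQ]
    generalize ⁅x, y⁆ = a
    simp only [commutatorElement_def]; group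
  rw [e3, e4, h2]
  have h4 : P = Q * ⁅x, l⁆⁻¹ * ⁅x, y⁆ := by
    have : P * (⁅x, y⁆⁻¹ * x) = Q * ⁅x, l⁆⁻¹ * x := by rw [← h3]; group
    calc P = P * (⁅x, y⁆⁻¹ * x) * (x⁻¹ * ⁅x, y⁆) := by group
      _ = (Q * ⁅x, l⁆⁻¹ * x) * (x⁻¹ * ⁅x, y⁆) := by rw [this]
      _ = _ := by group
  rw [h4]
  calc ⁅x, l⁆ * (Q * ⁅x, l⁆⁻¹ * ⁅x, y⁆) = (⁅x, l⁆ * Q) * ⁅x, l⁆⁻¹ * ⁅x, y⁆ := by group
    _ = (Q * ⁅x, l⁆) * ⁅x, l⁆⁻¹ * ⁅x, y⁆ := by rw [h1]
    _ = _ := by group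

end

/-- a nonsingular vector of `L` -/
def G14_n : V6 := ![1, 0, 0, 0, 0, 1]

theorem G14_id (v : V4) : ld G14_n (lv G14_n v) = v := by
  rw [ld, lv, Matrix.mulVec_mulVec, mul_star, show pf G14_n = 1 by decide, one_smul,
    Matrix.one_mulVec]

theorem bAL (h1 : S_COV) (h2 : S_TB) (h3 : S_STD2) (h4 : S_UQK) (h5 : S_HA) (h6 : S_CV)
    (h7 : S_AD) (h8 : S_LL) (h10 : S_PERF) : S_AL := by
  intro G _ _ π hc
  by_contra hcon
  have nv := Kt_normal π .v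
  have nl := Kt_normal π .l
  have nd := Kt_normal π .d
  have kv := Kt_le π .v
  have kl := Kt_le π .l
  have nA : (⁅Kt π .v, Kt π .l⁆ : Subgroup G).Normal := Subgroup.commutator_normal _ _
  have hA1 : ⁅Kt π .v, Kt π .l⁆ ≤ Kt π .v := Subgroup.commutator_le_left _ _
  have hA2 : ⁅Kt π .v, Kt π .l⁆ ≤ Kt π .d := h7 G π hc
  have hcv := h6 G π hc
  have cv : ∀ a ∈ Kt π .v, ∀ b ∈ Kt π .d, a * b = b * a := by
    intro a ha b hb
    have := Subgroup.commutator_mem_commutator ha hb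
    rw [hcv, Subgroup.mem_bot] at this
    rwa [commutatorElement_eq_one_iff_mul_comm] at this
  have hll : ⁅Kt π .l, Kt π .l⁆ ≤ Kt π .d :=
    (h8 G π hc).trans (sup_le hA2 (Subgroup.commutator_le_left _ _))
  have sym : ∀ x ∈ Kt π .v, ∀ l ∈ Kt π .l, ∀ y ∈ Kt π .l, ⁅⁅x, l⁆, y⁆ = ⁅⁅x, y⁆, l⁆ := by
    intro x hx l hl y hy
    have ha := Subgroup.commutator_mem_commutator hx hl
    have hb := Subgroup.commutator_mem_commutator hx hy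
    have hQ : l * ⁅x, y⁆⁻¹ * l⁻¹ ∈ ⁅Kt π .v, Kt π .l⁆ :=
      nA.conj_mem _ (Subgroup.inv_mem _ hb) l
    apply G14_hw
    · exact cv _ (hA1 ha) _ (hA2 hQ)
    · exact cv _ (hA1 hb) _ (hA2 hQ)
    · have h9 := hll (Subgroup.commutator_mem_commutator hl hy)
      have h10 : (y * l) * x * (y * l)⁻¹ ∈ Kt π .v := nv.conj_mem x hx _
      have h11 := cv _ h10 _ h9
      have e : (l * y) * x * (l * y)⁻¹ = ⁅l, y⁆ * ((y * l) * x * (y * l)⁻¹) * ⁅l, y⁆⁻¹ := by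
        simp only [commutatorElement_def]; group
      rw [e, ← h11]
      group
  obtain ⟨c, χ, hχ, -, x0, hx0, y0, hy0, hne0⟩ := h2 G π hc ⁅Kt π .v, Kt π .l⁆ (Kt π .l) ⊥ nA nl
    inferInstance (hA1.trans kv) kl (fun h => hcon (le_bot_iff.1 h))
  obtain ⟨Y, b, φY, a, m, θ, hYl, hLY, hm, hθ, hθn, hf, w, hw, y, hy, hwy⟩ :=
    G13_dev h1 h3 hc nA nl (hA1.trans kv) kl hχ
      ⟨_, Subgroup.commutator_mem_commutator hx0 hy0, hne0⟩
  have ha := h5 G π hc a θ hθ hθn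
  subst ha
  cases hm
  · exfalso
    apply hwy
    have : ⁅w, y⁆ = 1 := by
      rw [commutatorElement_eq_one_iff_mul_comm]
      exact cv _ (hA1 hw) _ (hLY.le_Kt hy)
    rw [this, hχ.map_one]
  clear hw hy hwy
  obtain ⟨Y', b', φ', a', m', θ', hYl', hLY', hm', hθ', hθn', hf', -⟩ :=
    G13_dev h1 h3 hc nv nl kv kl hθ hθn
  have ha' := h4 G π hc .v a' θ' hθ' hθn'
  subst ha'
  cases hm'
  -- the trilinear form
  have F : ∀ x ∈ Kt π .v, ∀ l ∈ Y', ∀ y ∈ Y,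
      χ ⁅⁅x, l⁆, y⁆ = mdl (mvl (θ' x) (φ' l)) (φY y) := by
    intro x hx l hl y hy
    rw [hf _ (Subgroup.commutator_mem_commutator hx (hYl' hl)) y hy, hf' x hx l hl]
  have nY := hLY.normal
  have nY' := hLY'.normal
  have nW : (⁅Kt π .v, Y⁆ : Subgroup G).Normal := Subgroup.commutator_normal _ _
  have hWk : ⁅Kt π .v, Y⁆ ≤ π.ker := (Subgroup.commutator_le_left _ _).trans kv
  have hsub : (⁅⁅Kt π .v, Y⁆, Y'⁆ : Subgroup G) ≤ ⁅⁅Kt π .v, Kt π .l⁆, Kt π .l⁆ :=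
    Subgroup.commutator_mono (Subgroup.commutator_mono le_rfl hYl) hYl'
  have hχ' := hχ.mono hsub
  have F' : ∀ x ∈ Kt π .v, ∀ l ∈ Y', ∀ y ∈ Y,
      χ ⁅⁅x, y⁆, l⁆ = mdl (mvl (θ' x) (φ' l)) (φY y) := by
    intro x hx l hl y hy
    rw [← sym x hx l (hYl' hl) y (hYl hy), F x hx l hl y hy]
  have hvan : ∀ w ∈ (⁅Kt π .v, Y⁆ : Subgroup G), ∀ l ∈ Y', φ' l = 0 → χ ⁅w, l⁆ = 0 := by
    intro w hw l hl h0
    have hle : (⁅Kt π .v, Y⁆ : Subgroup G) ≤ G14_L hχ' nW nY' hWk hl := by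
      rw [Subgroup.commutator_le]
      intro x hx y hy
      refine ⟨Subgroup.commutator_mem_commutator hx hy, ?_⟩
      rw [F' x hx l hl y hy, h0]
      have e : mvl (θ' x) 0 = 0 := by
        have := Std3.vl.add_right (θ' x) 0 0
        rw [add_zero] at this
        exact left_eq_add.1 this
      have e' : ∀ z, mdl 0 z = 0 := by
        intro z
        have := Std3.dl.add_left 0 0 z
        rw [add_zero] at this
        exact left_eq_add.1 this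
      exact (congrArg (fun t => mdl t (φY y)) e).trans (e' _)
    exact (hle hw).2
  obtain ⟨x1, hx1, hx1'⟩ := hθn'
  obtain ⟨l1, hl1, hl1'⟩ := hLY'.surj G14_n
  obtain ⟨y1, hy1, hy1'⟩ := hLY.surj G14_n
  have hnz : χ ⁅⁅x1, y1⁆, l1⁆ ≠ 0 := by
    rw [F' x1 hx1 l1 hl1 y1 hy1, hl1', hy1']
    intro h
    exact hx1' ((G14_id (θ' x1)).symm.trans h)
  rcases h3 G π hc ⁅Kt π .v, Y⁆ Y' .l φ' nW hWk hLY' .v χ hχ' hvan with h0 | ⟨a2, m2, θ2, hm2, hθ2,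
    -, hf2⟩
  · exact hnz (h0 _ (Subgroup.commutator_mem_commutator hx1 hy1) _ hl1)
  cases hm2
  have hvan2 : ∀ x ∈ Kt π .v, ∀ y ∈ Y, φY y = 0 → θ2 ⁅x, y⁆ = 0 := by
    intro x hx y hy h0
    apply (h10 .d .l .v mdl Std3.dl).1
    intro z
    obtain ⟨l, hl, rfl⟩ := hLY'.surj z
    rw [← hf2 _ (Subgroup.commutator_mem_commutator hx hy) l hl, F' x hx l hl y hy, h0]
    have := Std3.dl.add_right (mvl (θ' x) (φ' l)) 0 0
    rw [add_zero] at this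
    exact left_eq_add.1 this
  rcases h3 G π hc (Kt π .v) Y .l φY nv kv hLY .d θ2 hθ2 hvan2 with h0 | ⟨a3, m3, θ3, hm3, hθ3,
    -, hf3⟩
  · apply hnz
    rw [hf2 _ (Subgroup.commutator_mem_commutator hx1 hy1) _ hl1, h0 x1 hx1 y1 hy1]
    have := Std3.dl.add_left 0 0 (φ' l1)
    rw [add_zero] at this
    exact left_eq_add.1 this
  cases hm3
  -- the final contradiction
  have E : ∀ m n : V6, ld n (lv m (θ' x1)) = ld m (lv n (θ3 x1)) := by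
    intro m n
    obtain ⟨l, hl, hl'⟩ := hLY'.surj m
    obtain ⟨y, hy, hy'⟩ := hLY.surj n
    have e1 := F' x1 hx1 l hl y hy
    have e2 := hf2 _ (Subgroup.commutator_mem_commutator hx1 hy) l hl
    rw [hf3 x1 hx1 y hy] at e2
    rw [e2, hl', hy'] at e1
    exact e1.symm
  have hv : θ' x1 = θ3 x1 := by
    have := E G14_n G14_n
    rw [G14_id, G14_id] at this
    exact this
  have hcl := clifford ![1, 0, 0, 0, 0, 0] ![0, 0, 0, 0, 0, 1] (θ' x1)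
  rw [E ![0, 0, 0, 0, 0, 1] ![1, 0, 0, 0, 0, 0], ← hv,
    show pol ![1, 0, 0, 0, 0, 0] ![0, 0, 0, 0, 0, 1] = 1 by decide, one_smul] at hcl
  apply hx1'
  rw [← hcl]
  exact add_self (X := MV) _

end Pool.Agent.A8
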